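import Mathlib
import Pool.Agent.U237.LI.Stm

/-!
# Package MU of the project LI of helper237, proved by helper109
-/

set_option autoImplicit false

namespace Pool.Agent.U109.LI

open Finset Filter Topology
open Pool.Agent.U237.LI

/-- no square of `2, ..., D` divides `r` -/
def Gd (D r : ℕ) : Prop := ∀ d ∈ Icc 2 D, ¬ d ^ 2 ∣ r

instance (D : ℕ) : DecidablePred (Gd D) := fun r => by unfold Gd; infer_instance

/-- the modulus -/
def qq (D : ℕ) : ℕ := (Nat.factorial D) ^ 2

theorem qq_pos (D : ℕ) : 0 < qq D := pow_pos (Nat.factorial_pos D) 2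

theorem dvd_qq {D d : ℕ} (h : d ∈ Icc 2 D) : d ^ 2 ∣ qq D := by
  rw [mem_Icc] at h
  exact pow_dvd_pow_of_dvd (Nat.dvd_factorial (by omega) h.2) 2

theorem Gd_add (D M r : ℕ) : Gd D (qq D * M + r) ↔ Gd D r := by
  unfold Gd
  constructor
  · intro h d hd hr
    exact h d hd ((Nat.dvd_add_right ((dvd_qq hd).mul_right M)).2 hr)
  · intro h d hd hr
    exact h d hd ((Nat.dvd_add_right ((dvd_qq hd).mul_right M)).1 hr)

theorem Gd_mod (D r : ℕ) : Gd D (r % qq D) ↔ Gd D r := by
  conv_rhs => rw [← Nat.div_add_mod r (qq D)]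
  exact (Gd_add D _ _).symm

theorem count_mul (D M : ℕ) : Nat.count (Gd D) (qq D * M) = M * Nat.count (Gd D) (qq D) := by
  induction M with
  | zero => simp
  | succ M ih =>
    rw [Nat.mul_succ, Nat.count_add, ih, Nat.succ_mul]
    congr 1
    apply Nat.count_eq_card_filter_range _ _ |>.trans
    rw [Nat.count_eq_card_filter_range]
    congr 1
    ext x
    simp only [mem_filter, mem_range, Gd_add]

theorem key {D k k' s s' : ℕ} (hk : k ∈ Icc 1 D) (hk' : k' ∈ Icc 1 D) (hs : Gd D s) (hs' : Gd D s')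
    (h : k ^ 2 * s = k' ^ 2 * s') : k = k' := by
  rw [mem_Icc] at hk hk'
  obtain ⟨g, a, b, hg, hab, ha, hb⟩ := Nat.exists_coprime' (m := k) (n := k')
    (Nat.gcd_pos_of_pos_left _ (by omega))
  have ha0 : 0 < a := by
    rcases Nat.eq_zero_or_pos a with h0 | h0
    · rw [h0] at ha; omega
    · exact h0
  have hb0 : 0 < b := by
    rcases Nat.eq_zero_or_pos b with h0 | h0
    · rw [h0] at hb; omega
    · exact h0
  have h1 : a ^ 2 * s = b ^ 2 * s' := by
    have : g ^ 2 * (a ^ 2 * s) = g ^ 2 * (b ^ 2 * s') := by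
      calc g ^ 2 * (a ^ 2 * s) = (a * g) ^ 2 * s := by ring
        _ = (b * g) ^ 2 * s' := by rw [← ha, ← hb]; exact h
        _ = g ^ 2 * (b ^ 2 * s') := by ring
    exact Nat.eq_of_mul_eq_mul_left (pow_pos hg 2) this
  have hcop : Nat.Coprime (a ^ 2) (b ^ 2) := hab.pow 2 2
  have hbs : b ^ 2 ∣ s := hcop.symm.dvd_of_dvd_mul_left (Dvd.intro _ h1.symm)
  have has : a ^ 2 ∣ s' := hcop.dvd_of_dvd_mul_left (Dvd.intro _ h1)
  have hbD : b ≤ D := by
    have : b ≤ k' := by rw [hb]; exact Nat.le_mul_of_pos_right _ hg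
    omega
  have haD : a ≤ D := by
    have : a ≤ k := by rw [ha]; exact Nat.le_mul_of_pos_right _ hg
    omega
  have hb1 : b = 1 := by
    by_contra hb1
    exact hs b (by rw [mem_Icc]; omega) hbs
  have ha1 : a = 1 := by
    by_contra ha1
    exact hs' a (by rw [mem_Icc]; omega) has
  rw [ha, hb, ha1, hb1]

theorem card_le (D : ℕ) :
    (Nat.count (Gd D) (qq D) : ℝ) * ∑ k ∈ Icc 1 D, 1 / (k : ℝ) ^ 2 ≤ qq D := by
  classical
  let A : ℕ → Finset ℕ := fun k =>
    ((range (qq D * (Nat.factorial D / k) ^ 2)).filter (Gd D)).image (fun s => k ^ 2 * s)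
  have hdisj : ((Icc 1 D : Finset ℕ) : Set ℕ).PairwiseDisjoint A := by
    intro k hk k' hk' hne
    rw [Function.onFun, Finset.disjoint_left]
    intro x hx hx'
    obtain ⟨s, hs, rfl⟩ := Finset.mem_image.1 hx
    obtain ⟨s', hs', he⟩ := Finset.mem_image.1 hx'
    rw [mem_filter] at hs hs'
    exact hne (key (Finset.mem_coe.1 hk) (Finset.mem_coe.1 hk') hs.2 hs'.2 he.symm)
  have hsub : (Icc 1 D).biUnion A ⊆ range (qq D * (Nat.factorial D) ^ 2) := by
    intro x hx
    obtain ⟨k, hk, hx⟩ := Finset.mem_biUnion.1 hx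
    obtain ⟨s, hs, rfl⟩ := Finset.mem_image.1 hx
    rw [mem_filter, mem_range] at hs
    rw [mem_Icc] at hk
    rw [mem_range]
    have hkd : k ∣ Nat.factorial D := Nat.dvd_factorial (by omega) hk.2
    obtain ⟨m, hm⟩ := hkd
    have hm' : Nat.factorial D / k = m := by rw [hm]; exact Nat.mul_div_cancel_left m (by omega)
    rw [hm'] at hs
    calc k ^ 2 * s < k ^ 2 * (qq D * m ^ 2) := Nat.mul_lt_mul_of_pos_left hs.1 (pow_pos (by omega) 2)
      _ = qq D * (Nat.factorial D) ^ 2 := by rw [hm]; ring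
  have h1 := Finset.card_le_card hsub
  rw [Finset.card_biUnion hdisj, card_range] at h1
  have h2 : ∀ k ∈ Icc 1 D, (A k).card = (Nat.factorial D / k) ^ 2 * Nat.count (Gd D) (qq D) := by
    intro k hk
    rw [mem_Icc] at hk
    have hinj : Function.Injective (fun s : ℕ => k ^ 2 * s) := by
      intro s s' h
      exact Nat.eq_of_mul_eq_mul_left (pow_pos (by omega) 2) h
    rw [Finset.card_image_of_injective _ hinj, ← Nat.count_eq_card_filter_range, count_mul]
  rw [Finset.sum_congr rfl h2] at h1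
  have h3 : ∑ k ∈ Icc 1 D, (((Nat.factorial D : ℝ)) ^ 2 * (1 / (k : ℝ) ^ 2) * (Nat.count (Gd D) (qq D) : ℝ)) ≤
      (qq D : ℝ) * (Nat.factorial D : ℝ) ^ 2 := by
    have h4 : ((∑ k ∈ Icc 1 D, (Nat.factorial D / k) ^ 2 * Nat.count (Gd D) (qq D) : ℕ) : ℝ) ≤
        ((qq D * (Nat.factorial D) ^ 2 : ℕ) : ℝ) := by exact_mod_cast h1
    push_cast at h4
    refine le_trans (le_of_eq ?_) h4
    apply Finset.sum_congr rfl
    intro k hk
    rw [mem_Icc] at hk
    have hkd : k ∣ Nat.factorial D := Nat.dvd_factorial (by omega) hk.2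
    have hk0 : (k : ℝ) ≠ 0 := by
      have : k ≠ 0 := by omega
      exact_mod_cast this
    rw [Nat.cast_div hkd hk0]
    field_simp
  have hf : (0 : ℝ) < (Nat.factorial D : ℝ) ^ 2 := by
    have := Nat.factorial_pos D
    positivity
  have h5 : ((Nat.count (Gd D) (qq D) : ℝ) * ∑ k ∈ Icc 1 D, 1 / (k : ℝ) ^ 2) * (Nat.factorial D : ℝ) ^ 2 ≤
      (qq D : ℝ) * (Nat.factorial D : ℝ) ^ 2 := by
    refine le_trans (le_of_eq ?_) h3
    rw [Finset.mul_sum, Finset.sum_mul]
    apply Finset.sum_congr rfl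
    intro k _
    ring
  exact le_of_mul_le_mul_right h5 hf

theorem exists_D (e : ℝ) (he : 0 < e) : ∃ D : ℕ,
    (Nat.count (Gd D) (qq D) : ℝ) / qq D ≤ 6 / Real.pi ^ 2 + e := by
  have h1 := hasSum_zeta_two.tendsto_sum_nat
  have hpi : 0 < Real.pi := Real.pi_pos
  have h2 : Tendsto (fun n : ℕ => 1 / ∑ i ∈ range n, 1 / (i : ℝ) ^ 2) atTop (𝓝 (1 / (Real.pi ^ 2 / 6))) :=
    tendsto_const_nhds.div h1 (by positivity)
  have e1 : 1 / (Real.pi ^ 2 / 6) = 6 / Real.pi ^ 2 := by rw [one_div_div]
  rw [e1] at h2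
  obtain ⟨n, hn, hn2⟩ := ((h2.eventually_lt_const (show 6 / Real.pi ^ 2 < 6 / Real.pi ^ 2 + e by linarith)).and
    (eventually_ge_atTop 2)).exists
  refine ⟨n - 1, ?_⟩
  have h3 := card_le (n - 1)
  have h4 : ∑ i ∈ range n, 1 / (i : ℝ) ^ 2 = ∑ k ∈ Icc 1 (n - 1), 1 / (k : ℝ) ^ 2 := by
    symm
    apply Finset.sum_subset
    · intro x hx
      rw [mem_Icc] at hx
      rw [mem_range]
      omega
    · intro x hx hx'
      rw [mem_range] at hx
      rw [mem_Icc] at hx'
      have : x = 0 := by omega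
      simp [this]
  rw [h4] at hn
  have h5 : 0 < ∑ k ∈ Icc 1 (n - 1), 1 / (k : ℝ) ^ 2 := by
    apply Finset.sum_pos
    · intro k hk
      rw [mem_Icc] at hk
      have : 0 < k := by omega
      positivity
    · exact ⟨1, by rw [mem_Icc]; omega⟩
  have hq : (0 : ℝ) < qq (n - 1) := by exact_mod_cast qq_pos _
  refine le_trans ?_ hn.le
  rw [div_le_div_iff₀ hq h5]
  linarith

theorem t_MU : S_COS → S_MU := by
  classical
  intro hcos ε hε
  obtain ⟨e, he⟩ : ∃ e, e = min ε 1 / 10 := ⟨_, rfl⟩
  have he0 : 0 < e := by rw [he]; positivity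
  have he1 : e ≤ 1 / 10 := by rw [he]; linarith [min_le_right ε 1]
  have heε : 10 * e ≤ ε := by rw [he]; linarith [min_le_left ε 1]
  obtain ⟨D, hD⟩ := exists_D e he0
  obtain ⟨q, hqd⟩ : ∃ q, q = qq D := ⟨_, rfl⟩
  have hq0 : 0 < q := by rw [hqd]; exact qq_pos D
  have hqR : (0 : ℝ) < q := by exact_mod_cast hq0
  rw [← hqd] at hD
  obtain ⟨B, hB⟩ := hcos e he0
  refine ⟨B * q, fun l hl => ?_⟩
  obtain ⟨H1, hH1⟩ := hB l hl
  refine ⟨max (H1 * q) ⌈(q : ℝ) / e⌉₊, fun H hH => ⟨0, fun N _ θ t => ?_⟩⟩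
  have hHa : H1 ≤ H / q + 1 := by
    have : H1 * q ≤ H := (le_max_left _ _).trans hH
    have := (Nat.le_div_iff_mul_le hq0).2 this
    omega
  have hHb : (q : ℝ) ≤ e * H := by
    have h1 : (q : ℝ) / e ≤ ⌈(q : ℝ) / e⌉₊ := Nat.le_ceil _
    have h2 : ((⌈(q : ℝ) / e⌉₊ : ℕ) : ℝ) ≤ H := by exact_mod_cast (le_max_right _ _).trans hH
    have h3 := h1.trans h2
    rw [div_le_iff₀ he0] at h3
    linarith
  -- the bound for one window
  have hone : ∀ n : ℕ, Far (B * q) l (θ n) → ∑ i ∈ (range H).filter (fun i => Squarefree (n + i)),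
      |Real.cos (2 * Real.pi * ((i : ℝ) * θ n + t n))| ≤ (12 / Real.pi ^ 3 + ε) * H := by
    intro n hn
    have hfar : Far B l ((q : ℝ) * θ n) := by
      intro b hb1 hbB a
      have h1 := hn (b * q) (Nat.mul_pos hb1 hq0) (Nat.mul_le_mul_right q hbB) a
      have hb0 : (0 : ℝ) < b := by exact_mod_cast hb1
      have e1 : (q : ℝ) * θ n - a / b = q * (θ n - a / ((b * q : ℕ) : ℝ)) := by
        push_cast
        field_simp
      rw [e1, abs_mul, abs_of_pos hqR]
      have hq1 : (1 : ℝ) ≤ q := by exact_mod_cast hq0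
      nlinarith [abs_nonneg (θ n - a / ((b * q : ℕ) : ℝ))]
    set f : ℕ → ℝ := fun i => |Real.cos (2 * Real.pi * ((i : ℝ) * θ n + t n))| with hf
    have hf0 : ∀ i, 0 ≤ f i := fun i => abs_nonneg _
    set R : Finset ℕ := (range q).filter (Gd D) with hR
    have hRc : (R.card : ℝ) / q ≤ 6 / Real.pi ^ 2 + e := by
      rw [hR, ← Nat.count_eq_card_filter_range]
      rw [hqd] at hD ⊢
      exact hD
    have hmaps : ∀ i ∈ (range H).filter (fun i => Squarefree (n + i)), (n + i) % q ∈ R := by
      intro i hi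
      rw [mem_filter] at hi
      rw [hR, mem_filter, mem_range]
      refine ⟨Nat.mod_lt _ hq0, ?_⟩
      rw [hqd, Gd_mod]
      intro d hd hdd
      rw [mem_Icc] at hd
      have h1 := hi.2 d (by rw [← pow_two]; exact hdd)
      rw [Nat.isUnit_iff] at h1
      omega
    have hcl : ∀ r : ℕ, ∑ i ∈ (range H).filter (fun i => (n + i) % q = r), f i ≤
        (2 / Real.pi + e) * ((H / q + 1 : ℕ) : ℝ) := by
      intro r
      rcases ((range H).filter (fun i => (n + i) % q = r)).eq_empty_or_nonempty with h0 | ⟨i1, hi1⟩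
      · rw [h0, Finset.sum_empty]
        have := Real.pi_pos
        positivity
      · rw [mem_filter, mem_range] at hi1
        have hsub : (range H).filter (fun i => (n + i) % q = r) ⊆
            (range (H / q + 1)).image (fun j => i1 % q + q * j) := by
          intro i hi
          rw [mem_filter, mem_range] at hi
          rw [Finset.mem_image]
          refine ⟨i / q, ?_, ?_⟩
          · rw [mem_range]
            have := Nat.div_le_div_right (c := q) hi.1.le
            omega
          · have h1 : (n + i) ≡ (n + i1) [MOD q] := by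
              unfold Nat.ModEq
              rw [hi.2, hi1.2]
            have h2 : i ≡ i1 [MOD q] := Nat.ModEq.add_left_cancel' n h1
            unfold Nat.ModEq at h2
            show i1 % q + q * (i / q) = i
            rw [← h2]
            exact Nat.mod_add_div i q
        have hinj : Function.Injective (fun j : ℕ => i1 % q + q * j) := by
          intro j j' h
          have : q * j = q * j' := by
            have h' : i1 % q + q * j = i1 % q + q * j' := h
            omega
          exact Nat.eq_of_mul_eq_mul_left hq0 this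
        calc ∑ i ∈ (range H).filter (fun i => (n + i) % q = r), f i
            ≤ ∑ i ∈ (range (H / q + 1)).image (fun j => i1 % q + q * j), f i :=
              Finset.sum_le_sum_of_subset_of_nonneg hsub fun i _ _ => hf0 i
          _ = ∑ j ∈ range (H / q + 1), f (i1 % q + q * j) :=
              Finset.sum_image fun x _ y _ h => hinj h
          _ = ∑ j ∈ range (H / q + 1), |Real.cos (2 * Real.pi * ((j : ℝ) * ((q : ℝ) * θ n) +
                (((i1 % q : ℕ) : ℝ) * θ n + t n)))| := by
              apply Finset.sum_congr rfl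
              intro j _
              rw [hf]
              simp only
              congr 2
              push_cast
              ring
          _ ≤ _ := hH1 _ hHa _ hfar _
    have htot : ∑ i ∈ (range H).filter (fun i => Squarefree (n + i)), f i ≤
        R.card * ((2 / Real.pi + e) * ((H / q + 1 : ℕ) : ℝ)) := by
      rw [← Finset.sum_fiberwise_of_maps_to hmaps]
      calc _ ≤ ∑ r ∈ R, (2 / Real.pi + e) * ((H / q + 1 : ℕ) : ℝ) := by
            apply Finset.sum_le_sum
            intro r _
            refine le_trans ?_ (hcl r)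
            apply Finset.sum_le_sum_of_subset_of_nonneg
            · intro i hi
              rw [mem_filter, mem_filter] at hi
              rw [mem_filter]
              exact ⟨hi.1.1, hi.2⟩
            · exact fun i _ _ => hf0 i
        _ = _ := by rw [Finset.sum_const, nsmul_eq_mul]
    refine htot.trans ?_
    have hdiv : ((H / q + 1 : ℕ) : ℝ) ≤ (1 + e) * H / q := by
      push_cast
      have h1 : ((H / q : ℕ) : ℝ) ≤ (H : ℝ) / q := Nat.cast_div_le
      have h2 : (1 : ℝ) ≤ e * H / q := by rw [le_div_iff₀ hqR]; linarith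
      calc ((H / q : ℕ) : ℝ) + 1 ≤ (H : ℝ) / q + e * H / q := add_le_add h1 h2
        _ = (1 + e) * H / q := by ring
    have hpi := Real.pi_pos
    have hpi3 := Real.pi_gt_three
    have hH0 : (0 : ℝ) ≤ H := Nat.cast_nonneg H
    obtain ⟨u, hu⟩ : ∃ u, u = 2 / Real.pi := ⟨_, rfl⟩
    obtain ⟨v, hv⟩ : ∃ v, v = 6 / Real.pi ^ 2 := ⟨_, rfl⟩
    have hu0 : 0 < u := by rw [hu]; positivity
    have hv0 : 0 < v := by rw [hv]; positivity
    have hu1 : u ≤ 1 := by
      rw [hu, div_le_one hpi]; linarith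
    have hv1 : v ≤ 1 := by
      rw [hv, div_le_one (by positivity)]; nlinarith
    have huv : u * v = 12 / Real.pi ^ 3 := by
      rw [hu, hv]
      field_simp
      norm_num
    rw [← hv] at hRc
    rw [← hu, ← huv]
    have hw : (0 : ℝ) ≤ u + e := by linarith
    calc (R.card : ℝ) * ((u + e) * ((H / q + 1 : ℕ) : ℝ))
        ≤ (R.card : ℝ) * ((u + e) * ((1 + e) * H / q)) := by
          gcongr
      _ = (R.card : ℝ) / q * ((u + e) * ((1 + e) * H)) := by ring
      _ ≤ (v + e) * ((u + e) * ((1 + e) * H)) := by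
          apply mul_le_mul_of_nonneg_right hRc
          positivity
      _ = ((v + e) * (u + e) * (1 + e)) * H := by ring
      _ ≤ (u * v + ε) * H := by
          apply mul_le_mul_of_nonneg_right _ hH0
          have h1 : (v + e) * (u + e) ≤ u * v + 3 * e := by nlinarith
          have h2 : (v + e) * (u + e) * (1 + e) ≤ (u * v + 3 * e) * (1 + e) :=
            mul_le_mul_of_nonneg_right h1 (by linarith)
          have h3 : (u * v + 3 * e) * (1 + e) ≤ u * v + 10 * e := by
            have : u * v ≤ 1 := by nlinarith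
            nlinarith
          linarith
  calc ∑ n ∈ (range N).filter (fun n => Far (B * q) l (θ n)),
        ∑ i ∈ (range H).filter (fun i => Squarefree (n + i)),
          |Real.cos (2 * Real.pi * ((i : ℝ) * θ n + t n))|
      ≤ ∑ n ∈ (range N).filter (fun n => Far (B * q) l (θ n)), (12 / Real.pi ^ 3 + ε) * H := by
        apply Finset.sum_le_sum
        intro n hn
        rw [mem_filter] at hn
        exact hone n hn.2
    _ = (((range N).filter (fun n => Far (B * q) l (θ n))).card : ℝ) * ((12 / Real.pi ^ 3 + ε) * H) := by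
        rw [Finset.sum_const, nsmul_eq_mul]
    _ ≤ (N : ℝ) * ((12 / Real.pi ^ 3 + ε) * H) := by
        have hpi := Real.pi_pos
        apply mul_le_mul_of_nonneg_right _ (by positivity)
        have := Finset.card_filter_le (range N) (fun n => Far (B * q) l (θ n))
        rw [card_range] at this
        exact_mod_cast this
    _ = (12 / Real.pi ^ 3 + ε) * H * N := by ring

end Pool.Agent.U109.LI
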